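import Pool.Agent.W5h29.IN.Ex
import Pool.Agent.W5h29.IN.Fin
import Pool.Agent.W5h29.IN.Uni
import Pool.Agent.W5h29.IN.Scale
set_option autoImplicit false

/-!
The plane curves `C : λ ∏_p L_p(x, y) = 1` over `ℚ`, `L_p = α_p x + β_p y + γ_p`, for the arrangements of
`N ≥ 3` lines over `ℤ` with integral nodes (`Arr`), parallel lines and all directions allowed. The elements
`∑ c_{p,q} ({L_p, L_q} - {L_p / L_q, α_p β_q - α_q β_p})`, `c` a rational circulation on the graph of the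
pairs of nonparallel lines, are unramified at all discrete valuations, form a space of parameters of
dimension `E - N + 1`, and have regulators which are linearly independent over `ℝ`: for all these
curves with at least `100` lines, for all but finitely many of those with bounded numbers
`α_p β_q - α_q β_p`, for curves of degree three over the `x`-line with `E - N + 1 = g` for every `g ≥ 2`,
and, after a change of the scale, for every arrangement of lines over `ℚ` in general position.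
-/

namespace Pool.Agent.Results.MP_743d1e_nt.IntegralNodes

open Pool.Agent.W5h29.LA (Dat)

open Pool.Agent.W5h29.LU (Equi)

open Pool.Agent.W5h29.PC (ksize)

open Pool.Agent.W5h29 (PC.UnramifiedSymbols PC.IndependentRegulators)

open Pool.Agent.W5h29.IN

/-- The conclusions about the curve `λ ∏_p L_p = 1`: the coordinate ring is a domain, the affine curve
is smooth, the elements `∑ c_{p,q} ({L_p, L_q} - {L_p / L_q, α_p β_q - α_q β_p})` given by the rational
circulations `c` are unramified, the dimension of the space of circulations is `E - N + 1`, and the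
regulators are independent. -/
def Holds.{v} {N : ℕ} (D : Dat ℚ N) : Prop :=
  IsDomain D.CRing ∧ (∀ σ : ℚ →+* ℂ, D.Smooth σ) ∧ PC.UnramifiedSymbols.{0, v} D ∧
    Module.finrank ℚ (D.circ ℚ) + N = D.edges + 1 ∧ ∀ σ : ℚ →+* ℂ, PC.IndependentRegulators D σ

/-- The explicit condition: `N ≥ 100`, or the numbers
`k_{p,q} = |λ| ∏_a |det(L_p, L_q, L_a)| / |α_p β_q - α_q β_p|` for the nonparallel `L_p`, `L_q` are
at least `10 ^ 8 4 ^ N`, or `|λ| ≥ 2` and they are at least `300 N ^ 2`, or `|λ| ≥ 4` and they are at least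
`100 N ^ 2`, or all `α_p β_q - α_q β_p` are in `{0, 1, -1}` and `N ≥ 20` or `|λ| ≥ 6400` or they are at
least `10 ^ 10`. -/
def Large {N : ℕ} (D : Dat ℚ N) : Prop :=
  100 ≤ N ∨ (∀ p q, D.det2 p q ≠ 0 → 10 ^ 8 * 4 ^ N ≤ ksize D p q) ∨
    (2 ≤ |D.lam| ∧ ∀ p q, D.det2 p q ≠ 0 → 300 * (N : ℚ) ^ 2 ≤ ksize D p q) ∨
    (4 ≤ |D.lam| ∧ ∀ p q, D.det2 p q ≠ 0 → 100 * (N : ℚ) ^ 2 ≤ ksize D p q) ∨
    ((∀ p q, |D.det2 p q| ≤ 1) ∧ (20 ≤ N ∨ 6400 ≤ |D.lam| ∨
      ∀ p q, D.det2 p q ≠ 0 → 10 ^ 10 ≤ ksize D p q))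

/-- The curve `λ y (y - x + 1) (y + x + 1) ∏_j (x - c_j) = 1`. -/
def oddC {n : ℕ} (c : Fin n → ℤ) (l : ℤ) : Dat ℚ (3 + n) := fam ![0, -1, 1] ![0, 1, 1] c l

/-- The curve `λ y (y - t) (y - x + s) ∏_j (x - c_j) = 1`. -/
def evenC {n : ℕ} (s t : ℤ) (c : Fin n → ℤ) (l : ℤ) : Dat ℚ (3 + n) :=
  fam ![0, 0, -1] ![0, -t, s] c l

theorem holds_of_large.{v} {N : ℕ} {D : Dat ℚ N} (hN : 3 ≤ N) (hA : Arr D) (hL : Large D) :
    Holds.{v} D := by
  have key : (∀ σ : ℚ →+* ℂ, D.Smooth σ) ∧ ∀ σ : ℚ →+* ℂ, PC.IndependentRegulators D σ := by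
    have hN1 : (3 : ℚ) ≤ N := by exact_mod_cast hN
    have hsq : (0 : ℚ) ≤ (N : ℚ) ^ 2 := by positivity
    have hpow : 300 * (N : ℚ) ^ 2 ≤ 6250000 * (N : ℚ) ^ 6 := by
      have h1 : (N : ℚ) ^ 2 ≤ (N : ℚ) ^ 6 := pow_le_pow_right₀ (by linarith) (by norm_num)
      have h2 : (0 : ℚ) ≤ (N : ℚ) ^ 6 := by positivity
      linarith
    by_cases h100 : 100 ≤ N
    · have h : ∀ p q, D.det2 p q ≠ 0 → 6250000 * (N : ℚ) ^ 6 ≤ ksize D p q := by
        intro p q hd
        refine le_trans ?_ (size_many hA hd)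
        exact_mod_cast pow_bound N h100
      exact ⟨fun σ => smooth hA (by omega) fun p q hd => by
          have h1 := h p q hd
          linarith,
        fun σ => indep_far hA hN (far_many hA (by omega)) h⟩
    have h2 : 2 ≤ |D.lam| → (∀ p q, D.det2 p q ≠ 0 → 300 * (N : ℚ) ^ 2 ≤ ksize D p q) →
        (∀ σ : ℚ →+* ℂ, D.Smooth σ) ∧ ∀ σ : ℚ →+* ℂ, PC.IndependentRegulators D σ :=
      fun hl hK => ⟨fun σ => smooth hA (by omega) fun p q hd => by
          have h3 := hK p q hd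
          linarith,
        fun σ => indep_two hA hN hl hK⟩
    rcases hL with h | hK | ⟨h, hK⟩ | ⟨h, hK⟩ | ⟨h, hK⟩
    · exact absurd h h100
    · have h6 : ∀ p q, D.det2 p q ≠ 0 → 6250000 * (N : ℚ) ^ 6 ≤ ksize D p q := by
        intro p q hd
        refine le_trans ?_ (hK p q hd)
        have h3 : (N : ℚ) ^ 6 ≤ 16 * 4 ^ N := by exact_mod_cast pow_six N
        linarith
      by_cases hl : |D.lam| < 2
      · exact ⟨fun σ => smooth hA (by omega) fun p q hd => by
            have h3 := h6 p q hd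
            linarith,
          fun σ => indep_far hA hN (far_large hl hK) h6⟩
      · push Not at hl
        exact h2 hl fun p q hd => hpow.trans (h6 p q hd)
    · exact h2 h hK
    · exact ⟨fun σ => smooth hA (by omega) hK, fun σ => indep_four hA hN h hK⟩
    · refine unimodular hA hN h ?_
      rcases hK with hK | hK | hK
      · exact Or.inl hK
      · exact Or.inr (Or.inl hK)
      · exact Or.inr (Or.inr (Or.inr hK))
  exact ⟨Dat.isDomain hA.gen hA.dir hA.lam0 ⟨0, by omega⟩, key.1, unramified hA,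
    Dat.finrank_circ hA.dir ⟨0, by omega⟩, key.2⟩

theorem size_lam {N : ℕ} {D : Dat ℚ N} (hA : Arr D) {p q : Fin N} (hd : D.det2 p q ≠ 0) :
    |D.lam| ≤ ksize D p q := by
  classical
  refine le_mul_of_one_le_right (abs_nonneg _) ?_
  have h1 : ∏ a ∈ Dat.oth p q, (1 : ℚ) ≤ ∏ a ∈ Dat.oth p q, (|D.det3 p q a| / |D.det2 p q|) :=
    Finset.prod_le_prod (fun _ _ => zero_le_one) fun a ha => ratio_ge hA hd ha
  rwa [Finset.prod_const_one] at h1

theorem large_lam {N : ℕ} {D : Dat ℚ N} (hN : 3 ≤ N) (hA : Arr D)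
    (hl : 300 * (N : ℚ) ^ 2 ≤ |D.lam|) : Large D := by
  refine Or.inr (Or.inr (Or.inl ⟨?_, fun p q hd => hl.trans (size_lam hA hd)⟩))
  have h1 : (3 : ℚ) ≤ N := by exact_mod_cast hN
  nlinarith

theorem holds_odd.{v} {n : ℕ} (hn : 0 < n) (c : Fin n → ℤ) (l : ℤ) (hc : Function.Injective c)
    (h0 : ∀ j, c j ≠ 0 ∧ c j ≠ 1 ∧ c j ≠ -1) (hl : l ≠ 0)
    (hL : 300 * ((n : ℤ) + 3) ^ 2 ≤ |l| ∨ ∀ j, 10 ^ 8 * 4 ^ (n + 3) < |c j|) :
    Arr (oddC c l) ∧ Holds.{v} (oddC c l) ∧ Module.finrank ℚ ((oddC c l).circ ℚ) = 2 * n + 1 := by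
  have hC : Cond ![0, -1, 1] ![0, 1, 1] c := by
    refine ⟨by norm_num, hn, hc, ?_, ?_, ?_, ?_⟩
    · intro i j
      fin_cases i <;> fin_cases j <;> simp
      all_goals exact ⟨-1, by norm_num⟩
    · intro i j m hij
      obtain ⟨h1, h2, h3⟩ := h0 m
      fin_cases i <;> fin_cases j <;> simp at hij ⊢ <;> omega
    · intro i j m h1 h2 h3 _
      fin_cases i <;> fin_cases j <;> fin_cases m <;> simp [d3] at h1 h2 h3 ⊢
    · intro i j m
      fin_cases i <;> fin_cases j <;> fin_cases m <;> simp [d3]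
  have hA : Arr (oddC c l) := arr_fam hC hl
  have hLa : Large (oddC c l) := by
    rcases hL with hL | hL
    · refine large_lam (by omega) hA ?_
      show 300 * (((3 + n : ℕ) : ℕ) : ℚ) ^ 2 ≤ |((l : ℤ) : ℚ)|
      have h1 : 300 * ((n : ℚ) + 3) ^ 2 ≤ |((l : ℤ) : ℚ)| := by exact_mod_cast hL
      push_cast
      linarith
    · refine Or.inr (Or.inl fun p q hd => ?_)
      have h1 := size_fam hC hl (B := 10 ^ 8 * 4 ^ (n + 3)) ?_ ?_ p q hd
      · have e : (10 : ℚ) ^ 8 * 4 ^ (3 + n) = ((10 ^ 8 * 4 ^ (n + 3) : ℤ) : ℚ) := by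
          rw [add_comm 3 n]
          push_cast
          ring
        rw [e]
        exact h1
      · intro i
        fin_cases i
        · exact ⟨1, by simp⟩
        · exact ⟨0, by simp⟩
        · exact ⟨0, by simp⟩
      · intro i j m hij
        have h2 := lt_abs.1 (hL m)
        set B : ℤ := 10 ^ 8 * 4 ^ (n + 3)
        fin_cases i <;> fin_cases j <;> simp at hij ⊢
        all_goals first
          | (rw [le_abs]; omega)
          | (rw [Int.le_ediv_iff_mul_le (by norm_num), le_abs]; omega)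
  refine ⟨hA, holds_of_large (by omega) hA hLa, ?_⟩
  have h1 := Dat.finrank_circ hA.dir (⟨0, by omega⟩ : Fin (3 + n))
  have h2 : (oddC c l).edges = _ := edges_fam
  have h3 : {e : Fin 3 × Fin 3 | e.1 < e.2 ∧ (![0, -1, 1] : Fin 3 → ℤ) e.1 ≠ ![0, -1, 1] e.2}.ncard
      = 3 := by
    rw [Set.ncard_eq_toFinset_card']
    decide
  rw [h3] at h2
  omega

theorem holds_even.{v} {n : ℕ} (hn : 0 < n) (s t : ℤ) (c : Fin n → ℤ) (l : ℤ)
    (hc : Function.Injective c) (ht : t ≠ 0) (h0 : ∀ j, c j ≠ s ∧ c j ≠ s + t) (hl : l ≠ 0)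
    (hL : 300 * ((n : ℤ) + 3) ^ 2 ≤ |l| ∨
      ∀ j, 10 ^ 8 * 4 ^ (n + 3) ≤ |c j - s| ∧ 10 ^ 8 * 4 ^ (n + 3) ≤ |c j - (s + t)|) :
    Arr (evenC s t c l) ∧ Holds.{v} (evenC s t c l) ∧
      Module.finrank ℚ ((evenC s t c l).circ ℚ) = 2 * n := by
  have hC : Cond ![0, 0, -1] ![0, -t, s] c := by
    refine ⟨by norm_num, hn, hc, ?_, ?_, ?_, ?_⟩
    · intro i j
      fin_cases i <;> fin_cases j <;> simp
      all_goals exact ⟨s + t, by ring⟩
    · intro i j m hij
      obtain ⟨h1, h2⟩ := h0 m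
      fin_cases i <;> fin_cases j <;> simp at hij ⊢ <;> omega
    · intro i j m h1 h2 h3 _
      fin_cases i <;> fin_cases j <;> fin_cases m <;> simp [d3] at h1 h2 h3 ⊢ <;> omega
    · intro i j m
      fin_cases i <;> fin_cases j <;> fin_cases m <;> simp [d3]
  have hA : Arr (evenC s t c l) := arr_fam hC hl
  have hLa : Large (evenC s t c l) := by
    rcases hL with hL | hL
    · refine large_lam (by omega) hA ?_
      show 300 * (((3 + n : ℕ) : ℕ) : ℚ) ^ 2 ≤ |((l : ℤ) : ℚ)|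
      have h1 : 300 * ((n : ℚ) + 3) ^ 2 ≤ |((l : ℤ) : ℚ)| := by exact_mod_cast hL
      push_cast
      linarith
    · refine Or.inr (Or.inl fun p q hd => ?_)
      have h1 := size_fam hC hl (B := 10 ^ 8 * 4 ^ (n + 3)) ?_ ?_ p q hd
      · have e : (10 : ℚ) ^ 8 * 4 ^ (3 + n) = ((10 ^ 8 * 4 ^ (n + 3) : ℤ) : ℚ) := by
          rw [add_comm 3 n]
          push_cast
          ring
        rw [e]
        exact h1
      · intro i
        fin_cases i
        · exact ⟨2, by simp⟩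
        · exact ⟨2, by simp⟩
        · exact ⟨0, by simp⟩
      · intro i j m hij
        obtain ⟨h2, h3⟩ := hL m
        rw [le_abs] at h2 h3
        set B : ℤ := 10 ^ 8 * 4 ^ (n + 3)
        fin_cases i <;> fin_cases j <;> simp at hij ⊢
        all_goals (rw [le_abs]; omega)
  refine ⟨hA, holds_of_large (by omega) hA hLa, ?_⟩
  have h1 := Dat.finrank_circ hA.dir (⟨0, by omega⟩ : Fin (3 + n))
  have h2 : (evenC s t c l).edges = _ := edges_fam
  have h3 : {e : Fin 3 × Fin 3 | e.1 < e.2 ∧ (![0, 0, -1] : Fin 3 → ℤ) e.1 ≠ ![0, 0, -1] e.2}.ncard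
      = 2 := by
    rw [Set.ncard_eq_toFinset_card']
    decide
  rw [h3] at h2
  omega

/-- (1) The conclusions hold for all arrangements with integral nodes which satisfy the explicit condition
`Large`, in particular for all with at least `100` lines; the arrangements in general position all whose
numbers `α_p β_q - α_q β_p` are in `{0, 1, -1}` have integral nodes. (2) For every `M` they hold for all but
finitely many arrangements with `|α_p β_q - α_q β_p| ≤ M` for all `p`, `q`, up to integral affine changes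
of the coordinates. (3) They hold for the curves `λ y (y - x + 1) (y + x + 1) ∏_j (x - c_j) = 1` and
`λ y (y - t) (y - x + s) ∏_j (x - c_j) = 1` with `n` different integers `c_j`, for which the dimension is
`2 n + 1` and `2 n`. (4) For all lines `α_p x + β_p y + γ_p = 0` over `ℚ` in general position, with coprime
integers `α_p` and `β_p`, there is `M₀ > 0` such that they hold for the lines
`α_p x + β_p y + M γ_p = 0` and `λ`, for all `M ≠ 0` divisible by `M₀` and all integers `λ ≠ 0`. -/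
theorem result.{v} :
    (∀ (N : ℕ) (D : Dat ℚ N), 3 ≤ N → Arr D → Large D → Holds.{v} D) ∧
    (∀ (N : ℕ) (D : Dat ℚ N), D.Integral → D.Directions → D.Generic →
      Arr D ∧ ∀ p q, |D.det2 p q| ≤ 1) ∧
    (∀ M : ℕ, ∃ F : Set (Σ N, Dat ℚ N), F.Finite ∧ (∀ x ∈ F, x.1 < 100) ∧
      ∀ (N : ℕ) (D : Dat ℚ N), 3 ≤ N → Arr D → (∀ p q, |D.det2 p q| ≤ M) →
        (∀ D' : Dat ℚ N, (⟨N, D'⟩ : Σ N, Dat ℚ N) ∈ F → ¬ Equi D D') → Holds.{v} D) ∧
    (∀ n : ℕ, 0 < n → ∀ (c : Fin n → ℤ) (l : ℤ), Function.Injective c →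
      (∀ j, c j ≠ 0 ∧ c j ≠ 1 ∧ c j ≠ -1) → l ≠ 0 →
      (300 * ((n : ℤ) + 3) ^ 2 ≤ |l| ∨ ∀ j, 10 ^ 8 * 4 ^ (n + 3) < |c j|) →
      Arr (oddC c l) ∧ Holds.{v} (oddC c l) ∧
        Module.finrank ℚ ((oddC c l).circ ℚ) = 2 * n + 1) ∧
    (∀ n : ℕ, 0 < n → ∀ (s t : ℤ) (c : Fin n → ℤ) (l : ℤ), Function.Injective c → t ≠ 0 →
      (∀ j, c j ≠ s ∧ c j ≠ s + t) → l ≠ 0 →
      (300 * ((n : ℤ) + 3) ^ 2 ≤ |l| ∨
        ∀ j, 10 ^ 8 * 4 ^ (n + 3) ≤ |c j - s| ∧ 10 ^ 8 * 4 ^ (n + 3) ≤ |c j - (s + t)|) →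
      Arr (evenC s t c l) ∧ Holds.{v} (evenC s t c l) ∧
        Module.finrank ℚ ((evenC s t c l).circ ℚ) = 2 * n) ∧
    ∀ N : ℕ, 3 ≤ N → ∀ (α β : Fin N → ℤ) (γ : Fin N → ℚ), (∀ p, IsCoprime (α p) (β p)) →
      (∀ p, ∃ q, (scaled α β γ 1 1).det2 p q ≠ 0) → (scaled α β γ 1 1).Generic →
      ∃ M₀ : ℤ, 0 < M₀ ∧ ∀ M l : ℤ, M ≠ 0 → M₀ ∣ M → l ≠ 0 →
        Arr (scaled α β γ M l) ∧ Holds.{v} (scaled α β γ M l) := by
  refine ⟨fun N D hN hA hL => holds_of_large hN hA hL, fun N D hI hD hG =>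
    ⟨arr_of_unimodular hI hD hG, fun p q => ?_⟩, fun M => ?_, fun n hn c l hc h0 hl hL =>
      holds_odd hn c l hc h0 hl hL, fun n hn s t c l hc ht h0 hl hL =>
      holds_even hn s t c l hc ht h0 hl hL, fun N hN α β γ hp hd hg => ?_⟩
  · rcases Pool.Agent.W5h29.LU.det2_cases hD p q with h | h | h
    · rw [h]; norm_num
    · rw [h]; norm_num
    · rw [h]; norm_num
  · refine ⟨exc (M + M * M + (10 ^ 8 * 4 ^ 100 : ℕ)), exc_finite _, ?_, ?_⟩
    · intro x hx
      unfold exc at hx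
      simp only [Set.mem_iUnion] at hx
      obtain ⟨K, hK, y, -, rfl⟩ := hx
      exact hK
    · intro N D hN hA hM hE
      by_cases h100 : 100 ≤ N
      · exact holds_of_large hN hA (Or.inl h100)
      refine holds_of_large hN hA (Or.inr (Or.inl fun p q hd => ?_))
      by_contra hlt
      push Not at hlt
      have h1 : ksize D p q < ((10 ^ 8 * 4 ^ 100 : ℕ) : ℚ) := by
        refine lt_of_lt_of_le hlt ?_
        push_cast
        have h2 : (4 : ℚ) ^ N ≤ 4 ^ 100 := pow_le_pow_right₀ (by norm_num) (by omega)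
        linarith
      obtain ⟨D', hD', hE'⟩ := exists_nf hA hd hM h1
      refine hE D' ?_ hE'
      unfold exc
      simp only [Set.mem_iUnion]
      have hN100 : N < 100 := by omega
      exact ⟨N, hN100, D', hD', rfl⟩
  · obtain ⟨M₀, h1, h2⟩ := exists_scale hN α β γ hp hd hg (C := 10 ^ 8 * 4 ^ N)
      (by
        have : (1 : ℤ) ≤ 4 ^ N := one_le_pow₀ (by norm_num)
        linarith)
    refine ⟨M₀, h1, fun M l hM hdM hl => ?_⟩
    obtain ⟨h3, h4⟩ := h2 M l hM hdM hl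
    refine ⟨h3, holds_of_large hN h3 (Or.inr (Or.inl fun p q hd => ?_))⟩
    have h5 := h4 p q hd
    push_cast at h5
    exact h5

end Pool.Agent.Results.MP_743d1e_nt.IntegralNodes
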