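import Pool.Agent.W5h29.LA.Unr
import Pool.Agent.W5h29.LA.Circ
import Pool.Agent.W5h29.LA.Ind
set_option autoImplicit false

/-!
The plane curves `C : λ ∏_p L_p(x, y) = 1` over a number field `K`, `L_p = α_p x + β_p y + γ_p` with `N ≥ 3`
linear polynomials, all coefficients and `λ ≠ 0` algebraic integers, all `α_p β_q - α_q β_p` zero or roots
of unity and not all lines parallel. Let `σ` be an embedding of `K` in `ℂ` and let `δ > 0` be a real number with
`|σ λ| δ ^ N ≥ 1` such that the `3 × 3`-determinants of the triples of different lines which are not all
parallel have absolute value at least `5 δ`. Then the coordinate ring of the affine curve is a domain, the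
complex curve is smooth, and the elements `∑ c_{p,q} {L_p, L_q}`, `c` a rational circulation on the graph
of the pairs of nonparallel lines, are unramified at all discrete valuations, form a space of
parameters of dimension `E - N + 1`, `E` the number of the pairs of nonparallel lines, and have
regulators which are linearly independent over `ℝ`.
-/

namespace Pool.Agent.Results.MP_743d1e_nt.LineArrangementCurves

open Pool.Agent.W5h29.LA

theorem result.{u, v} (K : Type u) [Field K] [NumberField K] (σ : K →+* ℂ) (N : ℕ) (hN : 3 ≤ N)
    (D : Dat K N) (hI : D.Integral) (hD : D.Directions) (hS : D.Separated σ) :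
    IsDomain D.CRing ∧ D.Smooth σ ∧ Dat.UnramifiedSymbols.{u, v} D ∧
      Module.finrank ℚ (D.circ ℚ) + N = D.edges + 1 ∧ D.IndependentRegulators σ :=
  ⟨Dat.isDomain hS.generic hD.2 hI.2.2 ⟨0, by omega⟩, Dat.smooth hD hS hN, unramified hI hD,
    Dat.finrank_circ hD.2 ⟨0, by omega⟩, Dat.independent hD hS hN⟩

end Pool.Agent.Results.MP_743d1e_nt.LineArrangementCurves
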