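import Pool.Agent.W5h29.PC.Fin
set_option autoImplicit false

/-!
Smooth plane curves of every degree `N ≥ 3` over `ℚ` with `(N - 1) (N - 2) / 2` unramified elements of
`K_2` whose regulators are linearly independent: the curves `λ ∏_p L_p = 1`, `L_p = y + α_p x + γ_p`
with different integers `α_p`, integers `γ_p` and `λ ≠ 0`, such that all points of intersection of the
lines `L_p = 0` are integral and `|det(L_p, L_q, L_a)|` is at least the absolute value of the product of
the differences of `α_p`, `α_q`, `α_a`, for example `γ_p = f(-α_p)` for a polynomial `f` with integral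
coefficients such that no three of the points `(-α_p, γ_p)` are on a line. The result holds for all these
curves of degree at least `9` and, up to integral affine changes of the coordinates, for all but finitely
many of the others.
-/

namespace Pool.Agent.Results.MP_743d1e_nt.PlaneCurvesEveryDegree

open Pool.Agent.W5h29.LA (Dat)

open Pool.Agent.W5h29.LU (Equi)

open Pool.Agent.W5h29.PC

/-- The explicit condition: there are at least `9` lines, or the number
`|λ| ∏_a |det(L_p, L_q, L_a)| / |α_p - α_q|` is at least `10 ^ 6` for all `p ≠ q`, or there are at least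
`5` lines or `|λ| ≥ 4`, and this number is at least `100 N ^ 2` for all `p ≠ q`. -/
def Large {N : ℕ} (D : Dat ℚ N) : Prop :=
  9 ≤ N ∨ (∀ p q, p ≠ q → 10 ^ 6 ≤ ksize D p q) ∨
    ((5 ≤ N ∨ 4 ≤ |D.lam|) ∧ ∀ p q, p ≠ q → 100 * (N : ℚ) ^ 2 ≤ ksize D p q)

/-- (1) The conclusions hold for the curves which satisfy the explicit condition `Large`, in particular
for all curves with at least `9` lines. (2) They hold for all but finitely many curves of the family, up
to integral affine changes of the coordinates. (3) The family contains the curves with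
`L_p = y - a_p x + f(a_p)` for all polynomials `f` with integral coefficients and all different integers
`a_p` such that no three of the points `(a_p, f(a_p))` are on a line. -/
theorem result.{v} :
    (∀ (N : ℕ) (D : Dat ℚ N), 3 ≤ N → Adm D → Large D → Holds.{v} D) ∧
    (∃ F : Set (Σ N, Dat ℚ N), F.Finite ∧ (∀ x ∈ F, x.1 ≤ 8) ∧
      ∀ (N : ℕ) (D : Dat ℚ N), 3 ≤ N → Adm D →
        (∀ D' : Dat ℚ N, (⟨N, D'⟩ : Σ N, Dat ℚ N) ∈ F → ¬ Equi D D') → Holds.{v} D) ∧
    ∀ (N : ℕ) (a : Fin N → ℤ) (f : Polynomial ℤ) (l : ℤ), Function.Injective a → l ≠ 0 →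
      (∀ p q r, p ≠ q → q ≠ r → r ≠ p → dt (fun x => f.eval x) (a p) (a q) (a r) ≠ 0) →
      Adm (⟨fun p => ((-a p : ℤ) : ℚ), fun _ => 1, fun p => ((f.eval (a p) : ℤ) : ℚ), (l : ℚ)⟩ :
        Dat ℚ N) := by
  refine ⟨fun N D hN hA hL => holds_of hA hN hL, ⟨exc9, exc9_finite, fun x hx => hx.2, ?_⟩,
    fun N a f l ha hl hf => adm_poly a f l ha hl hf⟩
  intro N D hN hA hE
  by_cases h9 : 9 ≤ N
  · exact holds_of hA hN (Or.inl h9)
  refine holds_of hA hN (Or.inr (Or.inl fun p q hpq => ?_))
  by_contra hlt
  push Not at hlt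
  refine hE (nf D p q) ⟨?_, ?_⟩ (equi_nf hA hpq)
  · unfold Pool.Agent.W5h29.LU.exc
    simp only [Set.mem_iUnion]
    have hN20 : N < 20 := by omega
    exact ⟨N, hN20, nf D p q, nf_box hA hN hpq hlt, rfl⟩
  · show N ≤ 8
    omega

end Pool.Agent.Results.MP_743d1e_nt.PlaneCurvesEveryDegree
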