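import Pool.Agent.W5h29.GA.Unr
import Pool.Agent.W5h29.GA.Frac
import Pool.Agent.W5h29.GA.SmE
set_option autoImplicit false

/-!
Integral elements of `K_2` with independent regulators for the curves
`λ ∏_p (y - q_p(x)) ∏_j (x - b_j) = 1` over `ℚ`, where the graphs `y = q_p(x)` and the lines
`x = b_j` have only simple intersection points with integral coordinates: explicit lower bounds for
`|λ|` which depend only on the number of the graphs and of the intersection points, and families of
parabolas without any condition on `λ`.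
-/

namespace Pool.Agent.Results.MP_743d1e_nt.UniformGraphArrangements

open Pool.Agent.W5h29.GA Pool.Agent.W5h29.GA.Cfg

/-- Let `N ≥ 2`, `n ≥ 0`, let `q_1, ..., q_N` be polynomials with integral coefficients and
`b_1, ..., b_n` integers such that the arrangement of the graphs `y = q_p(x)` and of the lines `x = b_j`
is simple: the differences `q_p - q_r` are constants different from zero times products of different
factors `x - a` with integers `a`, no three components have a common point, the `b_j` are
different, and the dual graph is connected. Let `M` be the number of the nodes (the common points of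
two components).

(1) The dimension of the space of the cycles of the dual graph is `M - N - n + 1`. For `λ ≠ 0` the
coordinate ring of the affine curve `λ ∏_p (y - q_p(x)) ∏_j (x - b_j) = 1` over `ℚ` and that of its
open part are domains with the same function field. If `|λ| > 262144 N² M²`, the affine curve is
smooth.

(2) For rational cycles `w` the element `S(w) = ∑_ν w_ν s_ν` of `K_2` is unramified at all discrete
valuations, where `s_ν = {(y - q_p(x)) / (y - q_r(x)), x - a}` for a common point `ν` of the graphs `p`
and `r` with the abscissa `a`, and `s_ν = {y - q_p(x), x - b_j}` for the common point `ν` of the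
graph `p` and the line `x = b_j`.

(3) Suppose that `Far λ` holds: for every node, with the abscissa `a` and the first graph `p` through
it, and all `s ≠ p`, `|λ| σ_s ∏_{r ≠ p} σ_r ∏_j δ(a - b_j) ≥ 20 N M`, where `δ(m) = ||m| - 1/2|`, and `σ_r` is the absolute
value of the leading coefficient of `q_p - q_r` times the product of the `δ(a - a')` over the roots `a'`
of `q_p - q_r`. Then for no real cycle `w ≠ 0` the regulator of `S(w)` vanishes on all loops.

(4) `Far λ` holds if `|λ| ≥ 1280 N M`, and also if
`|λ| |κ_{ps}| ∏_{r ≠ p} |κ_{pr}| ≥ 1280 N M` for all `p ≠ s`, `κ_{pr}` the leading coefficient of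
`q_p - q_r`.

(5) Let `t_1, ..., t_N` be integers different from zero with different squares, and `b_1, ..., b_n`
different integers with `b_j² ≠ (t_p t_r)²` for `p ≠ r`. Then the arrangement of the parabolas
`y = m (x² / t_p² + t_p²)`, `m = ∏_r t_r²`, and of the lines `x = b_j` is simple, the space of the
cycles has the dimension `(N - 1) (N + n - 1)`. If `N ≥ 5` and `n ≤ 1000`, `Far λ` holds for every
`λ ≠ 0`. If `N ≥ 5` and `n = 0`, also the affine curve is smooth for every `λ ≠ 0`. -/
theorem result.{w} :
    (∀ {N n : ℕ} (D : Cfg N n), 2 ≤ N → D.Simple →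
      Module.finrank ℚ (D.cyc ℚ) + (N + n) = Fintype.card D.Node + 1 ∧
      (∀ lam : ℤ, lam ≠ 0 → IsDomain (D.CRing lam) ∧ IsDomain (D.ORing lam) ∧
        ∀ (L : Type w) [Field L] [Algebra (D.CRing lam) L] [IsFractionRing (D.CRing lam) L],
          ∃ f : D.ORing lam →+* L, ∀ r, f (D.toO lam r) = algebraMap (D.CRing lam) L r) ∧
      (∀ lam : ℤ, 262144 * (N : ℝ) ^ 2 * (Fintype.card D.Node : ℝ) ^ 2 < |(lam : ℝ)| →
        D.Smooth lam) ∧
      (∀ lam : ℤ, D.UnramifiedSymbols.{w} lam) ∧
      (∀ lam : ℤ, D.Far lam → D.IndependentRegulators lam) ∧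
      (∀ lam : ℤ, 1280 * (N : ℝ) * Fintype.card D.Node ≤ |(lam : ℝ)| → D.Far lam) ∧
      ∀ lam : ℤ, (∀ p s, p ≠ s → 1280 * (N : ℝ) * Fintype.card D.Node ≤
        |(lam : ℝ)| * (∏ r ∈ Finset.univ.erase p, |((D.q p - D.q r).leadingCoeff : ℝ)|) *
          |((D.q p - D.q s).leadingCoeff : ℝ)|) → D.Far lam) ∧
    (∀ {N n : ℕ} (t : Fin N → ℤ) (b : Fin n → ℤ), 0 < N → ParOK t b →
      (par t b).Simple ∧ Module.finrank ℚ ((par t b).cyc ℚ) = (N - 1) * (N + n - 1) ∧
      (5 ≤ N → n ≤ 1000 → ∀ lam : ℤ, lam ≠ 0 → (par t b).Far lam) ∧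
      (5 ≤ N → n = 0 → ∀ lam : ℤ, lam ≠ 0 → (par t b).Smooth lam)) := by
  refine ⟨fun {N n} D hN hD => ?_, fun t b hN h =>
    ⟨par_simple h, par_finrank h hN, fun h5 hn lam hl => par_far h h5 hn hl,
      fun h5 hn lam hl => par_smooth h h5 hn hl⟩⟩
  have p₀ : Fin N := ⟨0, by omega⟩
  refine ⟨D.finrank_cyc hD p₀, fun lam hl => ⟨D.isDomain hD hl p₀, D.isDomain_ORing hD hl p₀,
    fun L _ _ _ => ?_⟩, fun lam h => D.smooth_large hD hN h, fun lam => D.unramified lam,
    fun lam hF => D.indep_far hD hN hF, fun lam h => D.far_of_large hD h,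
    fun lam h => D.far_of_lc hD h⟩
  have := D.isDomain hD hl p₀
  have h : FaithfulSMul (D.CRing lam) L :=
    (faithfulSMul_iff_algebraMap_injective _ _).2 (IsFractionRing.injective _ _)
  exact D.exists_hom hl p₀ L

end Pool.Agent.Results.MP_743d1e_nt.UniformGraphArrangements
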